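import Mathlib
import Pool.Agent.H204R3.CM.Nondeg
import Pool.Agent.H204R3.GH.Defs
import Pool.Agent.H204R3.GH.MovableDefs
import Pool.Agent.H204R3.GH.Movable

/-!
# Cohomology without holomorphic forms, in bounded degree, for abelian varieties of CM type

Let `E i` be finitely many CM fields and `Φ i` CM types such that every set of at most `N` embeddings
of the fields `E i` that does not contain two complex conjugate embeddings is moved into the CM types
by an automorphism of the complex numbers (`Movable N Φ`).  Let `A` be a product of abelian varieties
of CM type `(E i, Φ i)`, with arbitrary multiplicities, and let `n ≤ N`.  Then every class in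
`H^n(A, ℚ)` of Hodge coniveau at least `ν` is a combination with rational coefficients of wedge
products of `ν` Hodge classes of degree two with classes of degree `n - 2 ν`.

So let `V` be a Hodge substructure of `H^n(A, ℚ)`, `n ≤ N`, with `V^{n,0} = 0`.  By the theorem (with
`ν = 1`) all elements of `V` are combinations of products of Hodge classes of degree two with other
classes.  By the Lefschetz theorem on (1,1)-classes the Hodge classes of degree two are combinations
of classes of divisors, so that `V` vanishes on the complement of a divisor.  If `Y` is a smooth
projective variety with `h^{n,0}(Y) = 0` which is dominated by `A` (for example a resolution of the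
quotient of `A` by a finite group), then `H^n(Y, ℚ)` is such a `V`, and so `H^n(Y, ℚ)` vanishes on a
dense open subset of `Y`: its image under the pullback is supported on a divisor, and one applies the
direct image.  This is the assertion of the problem for `Y` in degree `n`.

The condition for `N = 2` holds for all simple, pairwise not isogenous abelian varieties of CM type.
The second part of the theorem gives natural examples for larger `N`: let the CM field `E` contain an
imaginary quadratic field `K`, let the Galois group of the totally real subfield be `N`-transitive on
the embeddings and independent of `K` (for example the symmetric group, or the alternating group of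
degree at least `N + 2`), and let the CM type have signature `(r, s)` over `K` with `r, s ≥ N`.  Here
the abelian varieties have exceptional classes in higher degrees, for example the Weil classes if
`r = s`; and there are Hodge substructures of coniveau `1` which are not generated by divisors in the
degree `r + s`.

The proof.  In the complex coordinates a rational form is a combination of monomials, that is, of
words of length `n` in the embeddings of the fields `E i`.  With a monomial all its Galois conjugates
occur, so that all of them have at least `ν` letters outside of the CM types.  Choose from each pair
of conjugate embeddings occurring in the word the one that occurs at least as often as the other one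
and move these into the CM types.  Then the letters outside of the CM types belong to disjoint pairs of
conjugate embeddings in the word, and so there are at least `ν` such pairs; they give Hodge classes
of degree two.  The rest is Galois descent and alternation.
-/

namespace Pool.Agent.Results.MP_1c689d_ag.MovableCMTypes

open NumberField Module Pool.Agent.H204R3.CM Pool.Agent.H204R3.GH

/-- (1) Classes of Hodge coniveau at least `ν` in `H^n(A, ℚ)`, `n ≤ N`, are generated by products of
`ν` Hodge classes of degree two with other classes, for all products `A` of abelian varieties of CM
type `(E i, Φ i)`, if the family of CM types is `N`-movable.  (2) This holds for the CM type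
`(F, Ψ)`, if the automorphisms of the complex numbers act `N`-transitively on the embeddings of `F`
that map `δ` to the upper half plane, and `Ψ` contains at least `N` embeddings that map `δ` to the
upper and at least `N` that map it to the lower half plane. -/
theorem result :
    (∀ {ι : Type} [Fintype ι] (E : ι → Type) [∀ i, Field (E i)] [∀ i, NumberField (E i)]
      [∀ i, IsCMField (E i)] (Φ : ∀ i, Set (E i →+* ℂ)) (N : ℕ), (∀ i, IsCMType (Φ i)) →
      Movable N Φ → ∀ {J : Type} [Fintype J] (t : J → ι), ConiveauByDivisorsUpTo N (per Φ t)) ∧
    (∀ (F : Type) [Field F] [NumberField F] [IsCMField F] (Ψ : Set (F →+* ℂ)) (δ : F) (N : ℕ),
      IsCMType Ψ → (∀ φ : F →+* ℂ, (φ δ).im ≠ 0) → UpperTransitive N F δ →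
      SignatureAtLeast N Ψ δ → Movable N (fun _ : Unit => Ψ)) := by
  refine ⟨?_, fun F _ _ _ Ψ δ N hΨ hδ htrans h =>
    movable_of_upperTransitive hΨ δ hδ N htrans h.1 h.2⟩
  intro ι _ E _ _ _ Φ N hΦ hmov J _ t n ν f hn hf
  obtain ⟨L, _, _, j, hj⟩ := exists_galois E
  exact mem_span_divisible_deg hΦ t j hj (trans_of_movable j hmov hn) ν f hf

end Pool.Agent.Results.MP_1c689d_ag.MovableCMTypes
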